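import Mathlib
import Pool.Agent.H36EXT.Spec
import Pool.Agent.H36EXT.Count
import Pool.Agent.H36EXT.Gen

/-!
# MP_2bf34e_al: asymptotic Hilbert series of generic ideals in exterior algebras

`K` is an infinite field of characteristic different from `2`. The limit formula
`q_n(t) / (1 + t)^n → P(t)` holds for the degrees `d_1, …, d_r` if and only if `K` has
characteristic zero or all `d_i` are odd.
-/

set_option autoImplicit false

namespace Pool.Agent.Results.MP_2bf34e_al.LimitIffCharZeroOrOdd

open Module PowerSeries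

universe u v

section general

variable {K : Type u} [Field K]

/-- The dimension of `W / (W ∩ I)`, that is, of the image of `W` in `E / I`. -/
noncomputable def dimMod {E : Type v} [AddCommGroup E] [Module K E] (W I : Submodule K E) : ℕ :=
  finrank K (W ⧸ I.submoduleOf W)

variable {V : Type v} [AddCommGroup V] [Module K V] {r : ℕ}

/-- `f = (f_1, …, f_r)` is a tuple of forms of degrees `d_1, …, d_r` in the exterior algebra
of `V`. -/
def IsForms (d : Fin r → ℕ) (f : Fin r → ExteriorAlgebra K V) : Prop := ∀ i, f i ∈ ⋀[K]^(d i) V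

/-- The two-sided ideal `(f_1, …, f_r)`, as a `K`-subspace: it is spanned by the products
`a f_i b`. -/
def ideal (f : Fin r → ExteriorAlgebra K V) : Submodule K (ExteriorAlgebra K V) :=
  Submodule.span K {x | ∃ i a b, x = a * f i * b}

/-- The dimension of the degree `k` component of `⋀ V / (f_1, …, f_r)`. -/
noncomputable def quotDim (f : Fin r → ExteriorAlgebra K V) (k : ℕ) : ℕ :=
  dimMod (⋀[K]^k V) (ideal f)

end general

variable {K : Type u} [Field K] {r n : ℕ}

/-- Tuples of `r` elements of the exterior algebra of `V_n = K^n`. -/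
abbrev Tuple (K : Type u) [Field K] (n r : ℕ) : Type u := Fin r → ExteriorAlgebra K (Fin n → K)

/-- The Hilbert series of `⋀ V_n / (f_1, …, f_r)`. -/
noncomputable def hilb (f : Tuple K n r) : PowerSeries ℚ :=
  PowerSeries.mk fun k => (quotDim f k : ℚ)

/-- The tuple `f` of forms of degrees `d` is generic: every graded piece of `⋀ V_n / (f)` has
the least dimension among all tuples of forms of degrees `d`. -/
def IsGeneric (d : Fin r → ℕ) (f : Tuple K n r) : Prop :=
  IsForms d f ∧ ∀ g : Tuple K n r, IsForms d g → ∀ k, quotDim f k ≤ quotDim g k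

/-- `q_n(t) / (1 + t)^n` for the quotient by `(f_1, …, f_r)`. -/
noncomputable def ratio (f : Tuple K n r) : PowerSeries ℚ :=
  hilb f * ((1 + X) ^ n)⁻¹

/-- The series `P(t)`: a factor `1 - t^{d_i}` for `d_i` even, `(1 + t^{d_i})^{-1}` for
`d_i` odd. -/
noncomputable def P (d : Fin r → ℕ) : PowerSeries ℚ :=
  ∏ i, (if Even (d i) then 1 - X ^ d i else (1 + X ^ d i)⁻¹)

/-- `q_n(t) / (1 + t)^n` and `P(t)` have the same coefficients of `1, t, …, t^k`. -/
def AgreeUpTo (d : Fin r → ℕ) (f : Tuple K n r) (k : ℕ) : Prop :=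
  ∀ j ≤ k, coeff j (ratio f) = coeff j (P d)

/-- The limit formula of the problem: for every `k` and all large `n`, the coefficients of `t^k`
in `q_n(t) / (1 + t)^n` and in `P(t)` are equal, for all generic tuples. -/
def LimitFormula (K : Type u) [Field K] (d : Fin r → ℕ) : Prop :=
  ∀ k, ∃ N, ∀ n ≥ N, ∀ f : Tuple K n r, IsGeneric d f → coeff k (ratio f) = coeff k (P d)

lemma hilb_eq {d : Fin r → ℕ} {f : Fin r → ExteriorAlgebra K (Fin n → K)} (hf : IsForms d f) :
    hilb f = H36EXT.H d f Finset.univ := by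
  ext k
  unfold hilb H36EXT.H
  rw [coeff_mk, coeff_mk, ← H36EXT.quotDim_eq hf k]
  rfl

lemma DD_eq {d : Fin r → ℕ} {f : Fin r → ExteriorAlgebra K (Fin n → K)} (hf : IsForms d f) :
    H36EXT.DD d f Finset.univ = hilb f - (1 + X) ^ n * P d := by
  unfold H36EXT.DD
  rw [hilb_eq hf, Module.finrank_fin_fun]
  rfl

lemma ratio_iff {d : Fin r → ℕ} {f : Fin r → ExteriorAlgebra K (Fin n → K)} (hf : IsForms d f)
    (K₀ : ℕ) : (∀ k ≤ K₀, coeff k (ratio f) = coeff k (P d)) ↔
      ∀ k ≤ K₀, coeff k (H36EXT.DD d f Finset.univ) = 0 := by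
  rw [DD_eq hf]
  exact H36EXT.agree_iff

/-- generic tuples exist -/
theorem exists_generic [Infinite K] (d : Fin r → ℕ) (n : ℕ) :
    ∃ f : Fin r → ExteriorAlgebra K (Fin n → K), IsGeneric d f := by
  obtain ⟨f, hf, hf2⟩ := H36EXT.exists_gen (K := K) (V := Fin n → K) d (n + 1)
  refine ⟨f, hf, fun g hg k => ?_⟩
  by_cases hk : k < n + 1
  · have h1 := hf2 k hk g hg
    have h2 : (quotDim f k : ℚ) ≤ quotDim g k := by
      have e1 : (quotDim f k : ℚ) = H36EXT.Q d f Finset.univ k := H36EXT.quotDim_eq hf k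
      have e2 : (quotDim g k : ℚ) = H36EXT.Q d g Finset.univ k := H36EXT.quotDim_eq hg k
      rw [e1, e2]
      unfold H36EXT.Q
      have h3 : (finrank K (H36EXT.part d g Finset.univ k) : ℚ)
        ≤ finrank K (H36EXT.part d f Finset.univ k) := by exact_mod_cast h1
      linarith
    exact_mod_cast h2
  · have h1 : quotDim f k ≤ finrank K (⋀[K]^k (Fin n → K)) := by
      unfold quotDim
      unfold dimMod
      have := Submodule.finrank_quotient_add_finrank
        ((ideal f).submoduleOf (⋀[K]^k (Fin n → K)))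
      omega
    rw [exteriorPower.finrank_eq, Module.finrank_fin_fun, Nat.choose_eq_zero_of_lt (by omega)] at h1
    omega

/-- the two cases in which the limit formula holds, with an explicit bound -/
theorem limit_holds [Infinite K] (h2 : (2 : K) ≠ 0) (d : Fin r → ℕ) (hd : ∀ i, 1 ≤ d i)
    (hc : CharZero K ∨ ∀ i, Odd (d i)) (k : ℕ) (hn : (3 * k + 1) * ∑ i, d i ≤ n)
    (f : Fin r → ExteriorAlgebra K (Fin n → K)) (hf : IsGeneric d f) :
    ∀ j ≤ k, coeff j (ratio f) = coeff j (P d) := by
  obtain ⟨B⟩ := H36EXT.exists_blocks d (3 * k + 1) n hn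
  obtain ⟨w, hw⟩ := H36EXT.exists_weights K (3 * k + 1)
  let e : Module.Basis (Fin n) K (Fin n → K) := Pi.basisFun K (Fin n)
  have hs := H36EXT.special (e := e) B w h2 hd k
    (by
      intro i he
      have hz : CharZero K := by
        rcases hc with hc | hc
        · exact hc
        · exact absurd he (Nat.not_even_iff_odd.2 (hc i))
      exact ⟨hz, fun m hm U hU => H36EXT.cc_even B (hd i) he (by omega) hm U hU⟩)
    (fun i ho U hU => H36EXT.cc_odd B (hd i) ho (by omega) hw U hU) Finset.univ
  have hsf : IsForms d (H36EXT.ff e B) := fun i => H36EXT.ff_mem (e := e) B i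
  rw [ratio_iff hf.1]
  have hlex := H36EXT.lex_main hf.1 h2 hd Finset.univ
  have hle : ∀ j, coeff j (H36EXT.DD d f Finset.univ)
      ≤ coeff j (H36EXT.DD d (H36EXT.ff e B) Finset.univ) := by
    intro j
    rw [DD_eq hf.1, DD_eq hsf, map_sub, map_sub]
    have h3 : coeff j (hilb f) ≤ coeff j (hilb (H36EXT.ff e B)) := by
      unfold hilb
      rw [coeff_mk, coeff_mk]
      exact_mod_cast hf.2 _ hsf j
    linarith
  intro j
  induction j using Nat.strong_induction_on with
  | _ j ih =>
    intro hj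
    apply le_antisymm
    · rw [← hs j hj]
      exact hle j
    · exact hlex j fun i hi => ih i hi (by omega)

/-- in characteristic `p > 2` the formula fails for every tuple with an even degree -/
theorem limit_fails (d : Fin r → ℕ) (hd : ∀ i, 1 ≤ d i) {p : ℕ} (hp : p.Prime) (hp2 : p ≠ 2)
    (hK : CharP K p) (i₀ : Fin r) (he : Even (d i₀))
    (f : Fin r → ExteriorAlgebra K (Fin n → K)) (hf : IsForms d f) :
    ∃ k ≤ p * d i₀, coeff k (ratio f) ≠ coeff k (P d) := by
  by_contra hcon
  push Not at hcon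
  have hp' : Fact p.Prime := ⟨hp⟩
  obtain ⟨k, hk, hk2⟩ := H36EXT.main hp2 hf hd Finset.univ i₀ (Finset.mem_univ i₀) he
  exact hk2 ((ratio_iff hf (p * d i₀)).1 hcon k hk)

/-- Let `K` be an infinite field of characteristic different from `2` and `d_1, …, d_r ≥ 1`.

1. Generic tuples exist for every `n`.
2. The limit formula `q_n(t) / (1 + t)^n → P(t)` holds if and only if `K` has characteristic zero
or all `d_i` are odd.
3. In that case the coefficients of `1, t, …, t^k` agree as soon as
`n ≥ (3k + 1) (d_1 + … + d_r)`.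
4. If `K` has characteristic `p` and `d_{i₀}` is even, then for every `n` and every tuple of forms
(generic or not) one of the coefficients of `t^k`, `k ≤ p d_{i₀}`, is different. -/
theorem result {K : Type u} [Field K] [Infinite K] (h2 : (2 : K) ≠ 0) {r : ℕ} (d : Fin r → ℕ)
    (hd : ∀ i, 1 ≤ d i) :
    (∀ n, ∃ f : Tuple K n r, IsGeneric d f) ∧
    (LimitFormula K d ↔ (CharZero K ∨ ∀ i, Odd (d i))) ∧
    ((CharZero K ∨ ∀ i, Odd (d i)) → ∀ k n, (3 * k + 1) * ∑ i, d i ≤ n →
      ∀ f : Tuple K n r, IsGeneric d f → AgreeUpTo d f k) ∧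
    (∀ p, p.Prime → CharP K p → ∀ i₀, Even (d i₀) → ∀ n, ∀ f : Tuple K n r, IsForms d f →
      ¬ AgreeUpTo d f (p * d i₀)) := by
  have hp2 : ∀ p : ℕ, CharP K p → p ≠ 2 := by
    rintro p hK rfl
    apply h2
    have := CharP.cast_eq_zero K 2
    exact_mod_cast this
  refine ⟨exists_generic d, ⟨fun h => ?_, fun h k => ?_⟩, ?_, ?_⟩
  · by_contra hcon
    rw [not_or] at hcon
    obtain ⟨hc1, hc2⟩ := hcon
    push Not at hc2
    obtain ⟨i₀, hi₀⟩ := hc2
    have he : Even (d i₀) := by
      rcases Nat.even_or_odd (d i₀) with h | h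
      · exact h
      · exact absurd h hi₀
    obtain ⟨p, hK⟩ := CharP.exists K
    rcases CharP.char_is_prime_or_zero K p with hp | hp
    · unfold LimitFormula at h
      choose N hN using h
      obtain ⟨f, hf⟩ := exists_generic (K := K) d (∑ k ∈ Finset.range (p * d i₀ + 1), N k)
      obtain ⟨k, hk, hk2⟩ := limit_fails d hd hp (hp2 p hK) hK i₀ he f hf.1
      refine hk2 (hN k _ ?_ f hf)
      exact Finset.single_le_sum (f := N) (fun _ _ => Nat.zero_le _) (Finset.mem_range.2 (by omega))
    · subst hp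
      exact hc1 (CharP.charP_to_charZero K)
  · exact ⟨(3 * k + 1) * ∑ i, d i, fun n hn f hf => limit_holds h2 d hd h k hn f hf k le_rfl⟩
  · intro h k n hn f hf
    exact limit_holds h2 d hd h k hn f hf
  · intro p hp hK i₀ he n f hf hcon
    obtain ⟨k, hk, hk2⟩ := limit_fails d hd hp (hp2 p hK) hK i₀ he f hf
    exact hk2 (hcon k hk)

end Pool.Agent.Results.MP_2bf34e_al.LimitIffCharZeroOrOdd
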